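import Pool.Agent.MP_1246c0_nt.H12.SpecN

/-! Logarithmic derivatives of the L-series of characters whose modulus is a power of two. -/

namespace Pool.Agent.MP_1246c0_nt.H12

open Finset Filter Topology DirichletCharacter ArithmeticFunction

namespace LOG

theorem pw_nonneg (σ : ℝ) (n : ℕ) : 0 ≤ pw σ n := Real.rpow_nonneg n.cast_nonneg _

theorem pw_eq {σ : ℝ} (hσ : 0 < σ) (n : ℕ) : pw σ n = 1 / n * (n : ℝ) ^ (-σ) := by
  rw [pw, sub_eq_add_neg, Real.rpow_add' n.cast_nonneg (by linarith), Real.rpow_neg_one, one_div]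

theorem pw_le {σ : ℝ} (hσ : 0 < σ) (n : ℕ) : pw σ n ≤ 1 / n := by
  rcases n.eq_zero_or_pos with rfl | hn
  · simp [pw_eq hσ]
  · rw [pw_eq hσ]
    exact mul_le_of_le_one_right (by positivity)
      (Real.rpow_le_one_of_one_le_of_nonpos (by exact_mod_cast hn) (by linarith))

theorem term_eq (f : ℕ → ℂ) {σ : ℝ} (hσ : 0 < σ) (n : ℕ) :
    LSeries.term f (1 + σ) n = f n * (pw σ n : ℂ) := by
  rcases eq_or_ne n 0 with rfl | hn
  · simp [pw_eq hσ]
  · rw [LSeries.term_of_ne_zero hn, pw, Complex.ofReal_cpow n.cast_nonneg, div_eq_mul_inv,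
      ← Complex.cpow_neg]
    congr 2
    push_cast
    ring

theorem re_gt {σ : ℝ} (hσ : 0 < σ) : 1 < (1 + σ : ℂ).re := by simpa using hσ

/-- summation in blocks -/
theorem block (f : ℕ → ℂ) (g : ℕ → ℝ) (q N : ℕ) (hq : 0 < q) (hf : ∀ n, ‖f n‖ ≤ 1)
    (hz : ∀ n, ∑ a ∈ range q, f (n + a) = 0) (hg : ∀ n, 0 ≤ g n)
    (ha : ∀ m n, N ≤ m → m ≤ n → g n ≤ g m) (hs : Summable fun n => f n * g n) :
    ‖∑' n, f n * g n‖ ≤ ∑ n ∈ range N, g n + q * g N := by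
  have nb : ∀ (n : ℕ) (x : ℝ), 0 ≤ x → ‖f n * x‖ ≤ x := fun n x hx => by
    rw [norm_mul, Complex.norm_real, Real.norm_of_nonneg hx]
    exact mul_le_of_le_one_left hx (hf n)
  have key : ∀ J : ℕ, ‖∑ n ∈ range (N + J * q), f n * g n‖ ≤
      ∑ n ∈ range N, g n + q * (g N - g (N + J * q)) := by
    intro J
    induction J with
    | zero =>
      simp only [zero_mul, add_zero, sub_self, mul_zero]
      exact norm_sum_le_of_le _ fun n _ => nb n _ (hg n)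
    | succ J ih =>
      rw [add_mul, one_mul, ← add_assoc, sum_range_add]
      set M := N + J * q
      have e : ∑ a ∈ range q, f (M + a) * g (M + a) =
          ∑ a ∈ range q, f (M + a) * ((g (M + a) - g (M + q) : ℝ) : ℂ) := by
        simp only [Complex.ofReal_sub, mul_sub, sum_sub_distrib, ← sum_mul, hz, zero_mul, sub_zero]
      have h1 : ‖∑ a ∈ range q, f (M + a) * g (M + a)‖ ≤ q * (g M - g (M + q)) := by
        rw [e]
        refine (norm_sum_le_of_le _ (n := fun _ => g M - g (M + q)) fun a h => ?_).trans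
          (by rw [sum_const, card_range, nsmul_eq_mul])
        have := mem_range.1 h
        have h2 := ha (M + a) (M + q) (by omega) (by omega)
        have h3 := ha M (M + a) (by omega) (by omega)
        exact (nb _ _ (by linarith)).trans (by linarith)
      refine (norm_add_le _ _).trans ?_
      linarith
  have ht : Tendsto (fun J : ℕ => N + J * q) atTop atTop :=
    tendsto_atTop_mono (fun J => (Nat.le_mul_of_pos_right J hq).trans (Nat.le_add_left _ _))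
      tendsto_id
  refine le_of_tendsto' (hs.hasSum.tendsto_sum_nat.comp ht).norm fun J => (key J).trans ?_
  have := hg (N + J * q)
  have : (0 : ℝ) ≤ q := q.cast_nonneg
  nlinarith

theorem harm (j : ℕ) : ∑ n ∈ range (2 ^ j), 1 / (n : ℝ) ≤ j := by
  induction j with
  | zero => simp
  | succ j ih =>
    rw [pow_succ, mul_two, sum_range_add]
    have h : ∑ x ∈ range (2 ^ j), 1 / ((2 ^ j + x : ℕ) : ℝ) ≤ ∑ _x ∈ range (2 ^ j), 1 / (2 : ℝ) ^ j :=
      sum_le_sum fun x _ => by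
        push_cast
        exact one_div_le_one_div_of_le (by positivity) (le_add_of_nonneg_right x.cast_nonneg)
    simp only [sum_const, card_range, nsmul_eq_mul, Nat.cast_pow, Nat.cast_ofNat] at h
    rw [mul_one_div_cancel (by positivity)] at h
    push_cast at h ⊢
    linarith

theorem sum_zero {q : ℕ} [NeZero q] {ψ : DirichletCharacter ℂ q} (h : ψ ≠ 1) (n : ℕ) :
    ∑ a ∈ range q, ψ ((n + a : ℕ) : ZMod q) = 0 := by
  rw [← MulChar.sum_eq_zero_of_ne_one h]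
  refine sum_nbij' (fun a => ((n + a : ℕ) : ZMod q)) (fun x => (x - n).val) (fun _ _ => mem_univ _)
    (fun x _ => mem_range.2 (ZMod.val_lt _)) (fun a ha => ?_) (fun x _ => by simp) fun _ _ => rfl
  simp [ZMod.val_cast_of_lt (mem_range.1 ha)]

/-- a weighted sum of a nontrivial character -/
theorem bd {k : ℕ} {ψ : DirichletCharacter ℂ (2 ^ k)} (hk : 1 ≤ k) (h : ψ ≠ 1) {σ : ℝ} (hσ : 0 < σ)
    (w : ℕ → ℝ) (B : ℝ) (h0 : ∀ n, 0 ≤ w n) (hB : ∀ n ≤ 2 ^ (k + 1), w n ≤ B)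
    (ha : ∀ m n : ℕ, 4 ≤ m → m ≤ n → w n / n ≤ w m / m)
    (hs : Summable fun n : ℕ => ψ n * ((w n * pw σ n : ℝ) : ℂ)) :
    ‖∑' n : ℕ, ψ n * ((w n * pw σ n : ℝ) : ℂ)‖ ≤ B * (k + 2) := by
  have hB0 : 0 ≤ B := (h0 0).trans (hB 0 (Nat.zero_le _))
  have h4 : 4 ≤ 2 ^ (k + 1) := Nat.pow_le_pow_right (n := 2) two_pos (show 2 ≤ k + 1 by omega)
  have h1 : ∀ n ≤ 2 ^ (k + 1), w n * pw σ n ≤ B * (1 / n) := fun n hn =>
    mul_le_mul (hB n hn) (pw_le hσ n) (pw_nonneg σ n) hB0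
  refine (block (fun n => ψ n) (fun n => w n * pw σ n) (2 ^ k) (2 ^ (k + 1)) (by positivity)
    (fun n => ψ.norm_le_one _) (sum_zero h) (fun n => mul_nonneg (h0 n) (pw_nonneg σ n))
    (fun m n hm hmn => ?_) hs).trans ?_
  · simp only [pw_eq hσ, ← mul_assoc, mul_one_div]
    have hm0 : (0 : ℝ) < m := by exact_mod_cast (show 0 < m by omega)
    exact mul_le_mul (ha m n (h4.trans hm) hmn)
      (Real.rpow_le_rpow_of_nonpos hm0 (by exact_mod_cast hmn) (by linarith)) (by positivity)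
      (div_nonneg (h0 m) hm0.le)
  · have h2 : ∑ n ∈ range (2 ^ (k + 1)), w n * pw σ n ≤ B * (k + 1) := by
      refine (sum_le_sum fun n hn => h1 n (mem_range.1 hn).le).trans ?_
      rw [← mul_sum]
      exact mul_le_mul_of_nonneg_left (by exact_mod_cast harm (k + 1)) hB0
    have h3 : ((2 ^ k : ℕ) : ℝ) * (w (2 ^ (k + 1)) * pw σ (2 ^ (k + 1))) ≤ B / 2 := by
      refine (mul_le_mul_of_nonneg_left (h1 _ le_rfl) (Nat.cast_nonneg _)).trans (le_of_eq ?_)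
      push_cast
      field_simp
      ring
    linarith

theorem absc {q : ℕ} [NeZero q] (ψ : DirichletCharacter ℂ q) {s : ℂ} (hs : 1 < s.re) :
    LSeries.abscissaOfAbsConv (fun n : ℕ => (ψ n : ℂ)) < s.re := by
  rwa [absicssaOfAbsConv_eq_one (NeZero.ne q), ← EReal.coe_one, EReal.coe_lt_coe_iff]

theorem bd0 {k : ℕ} {ψ : DirichletCharacter ℂ (2 ^ k)} (hk : 1 ≤ k) (h : ψ ≠ 1) {σ : ℝ}
    (hσ : 0 < σ) : ‖LSeries (fun n : ℕ => (ψ n : ℂ)) (1 + σ)‖ ≤ k + 2 := by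
  have hs : Summable (LSeries.term (fun n : ℕ => (ψ n : ℂ)) (1 + σ)) := LSeriesSummable_of_one_lt_re ψ (re_gt hσ)
  have e : LSeries.term (fun n : ℕ => (ψ n : ℂ)) (1 + σ) = fun n : ℕ => ψ n * ((1 * pw σ n : ℝ) : ℂ) :=
    funext fun n => by rw [term_eq _ hσ, one_mul]
  rw [LSeries, e, ← one_mul (k + 2 : ℝ)]
  refine bd hk h hσ (fun _ => 1) 1 (fun _ => zero_le_one) (fun _ _ => le_rfl)
    (fun m n hm hmn => ?_) (e ▸ hs)
  exact one_div_le_one_div_of_le (by exact_mod_cast (show 0 < m by omega)) (by exact_mod_cast hmn)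

theorem bd1 {k : ℕ} {ψ : DirichletCharacter ℂ (2 ^ k)} (hk : 1 ≤ k) (h : ψ ≠ 1) {σ : ℝ}
    (hσ : 0 < σ) : ‖deriv (LSeries (fun n : ℕ => (ψ n : ℂ))) (1 + σ)‖ ≤ (k + 2) ^ 2 := by
  have hs : Summable (LSeries.term (LSeries.logMul (fun n : ℕ => (ψ n : ℂ))) (1 + σ)) :=
    LSeriesSummable_logMul_of_lt_re (absc ψ (re_gt hσ))
  have e : LSeries.term (LSeries.logMul (fun n : ℕ => (ψ n : ℂ))) (1 + σ) =
      fun n : ℕ => ψ n * ((Real.log n * pw σ n : ℝ) : ℂ) :=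
    funext fun n => by
      rw [term_eq _ hσ, LSeries.logMul, Complex.ofReal_mul, Complex.natCast_log]
      ring
  rw [LSeries_deriv (absc ψ (re_gt hσ)), norm_neg, LSeries, e, sq]
  refine bd hk h hσ (fun n => Real.log n) (k + 2) (fun n => Real.log_natCast_nonneg n)
    (fun n hn => ?_) (fun m n hm hmn => ?_) (e ▸ hs)
  · rcases n.eq_zero_or_pos with rfl | h0
    · simp only [Nat.cast_zero, Real.log_zero]
      positivity
    · have h1 : Real.log n ≤ Real.log (2 ^ (k + 1)) :=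
        Real.log_le_log (by exact_mod_cast h0) (by exact_mod_cast hn)
      rw [Real.log_pow] at h1
      have h2 := Real.log_two_lt_d9
      have h3 : (0 : ℝ) ≤ k := k.cast_nonneg
      push_cast at h1
      nlinarith
  · have h1 : Real.exp 1 ≤ m :=
      Real.exp_one_lt_three.le.trans (by exact_mod_cast (show 3 ≤ m by omega))
    have h2 : (m : ℝ) ≤ n := by exact_mod_cast hmn
    exact Real.log_div_self_antitoneOn h1 (h1.trans h2) h2

theorem lip {k : ℕ} {ψ : DirichletCharacter ℂ (2 ^ k)} (hk : 1 ≤ k) (h : ψ ≠ 1) {σ τ : ℝ}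
    (hσ : 0 < σ) (hτ : σ ≤ τ) : ‖LSeries (fun n : ℕ => (ψ n : ℂ)) (1 + τ) - LSeries (fun n : ℕ => (ψ n : ℂ)) (1 + σ)‖ ≤ (k + 2) ^ 2 * (τ - σ) := by
  refine norm_image_sub_le_of_norm_deriv_le_segment' (f := fun t : ℝ => LSeries (fun n : ℕ => (ψ n : ℂ)) (1 + t))
    (f' := fun t : ℝ => deriv (LSeries (fun n : ℕ => (ψ n : ℂ))) (1 + t)) (fun t ht => ?_)
    (fun t ht => bd1 hk h (hσ.trans_le ht.1)) τ ⟨hτ, le_rfl⟩
  have h1 := (LSeries_hasDerivAt (absc ψ (re_gt (hσ.trans_le ht.1)))).differentiableAt.hasDerivAt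
  exact (HasDerivAt.comp_ofReal (e := fun z => LSeries (fun n : ℕ => (ψ n : ℂ)) (1 + z))
    (HasDerivAt.comp_const_add 1 (t : ℂ) h1)).hasDerivWithinAt

theorem cpt {F : ℂ → ℂ} (h : ContinuousOn F {s | 1 ≤ s.re}) :
    ∃ C : ℝ, 1 ≤ C ∧ ∀ σ : ℝ, 0 < σ → σ ≤ 1 → ‖F (1 + σ)‖ ≤ C := by
  have h1 : ContinuousOn (fun σ : ℝ => F (1 + σ)) (Set.Icc 0 1) :=
    h.comp (f := fun σ : ℝ => (1 + σ : ℂ)) (by fun_prop) fun σ hσ => by simpa using hσ.1
  obtain ⟨C, hC⟩ := isCompact_Icc.exists_bound_of_continuousOn h1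
  exact ⟨max C 1, le_max_right _ _, fun σ h0 h1 => (hC σ ⟨h0.le, h1⟩).trans (le_max_left _ _)⟩

open Classical in
/-- a fixed modulus -/
theorem fixed (q : ℕ) [NeZero q] : ∃ C : ℝ, 0 ≤ C ∧ ∀ (χ : DirichletCharacter ℂ q) (σ : ℝ), 0 < σ →
    σ ≤ 1 → ‖LSeries ((fun n : ℕ => (χ n : ℂ)) * (fun n : ℕ => (Λ n : ℂ))) (1 + σ) - if χ = 1 then ((1 / σ : ℝ) : ℂ) else 0‖ ≤ C := by
  have key : ∀ χ : DirichletCharacter ℂ q, ∃ C : ℝ, 1 ≤ C ∧ ∀ σ : ℝ, 0 < σ → σ ≤ 1 →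
      ‖LSeries ((fun n : ℕ => (χ n : ℂ)) * (fun n : ℕ => (Λ n : ℂ))) (1 + σ) - if χ = 1 then ((1 / σ : ℝ) : ℂ) else 0‖ ≤ C := by
    intro χ
    have e : ∀ σ : ℝ, 0 < σ → LSeries ((fun n : ℕ => (χ n : ℂ)) * (fun n : ℕ => (Λ n : ℂ))) (1 + σ) =
        -deriv (LFunction χ) (1 + σ) / LFunction χ (1 + σ) := fun σ hσ => by
      rw [LSeries_twist_vonMangoldt_eq χ (re_gt hσ), deriv_LFunction_eq_deriv_LSeries χ (re_gt hσ),
        LFunction_eq_LSeries χ (re_gt hσ)]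
    by_cases h : χ = 1
    · subst h
      obtain ⟨C, h1, h2⟩ := cpt ((continuousOn_neg_logDeriv_LFunctionTrivChar₁ q).mono
        fun s hs => (eq_or_ne s 1).imp_right fun h => LFunction_ne_zero_of_one_le_re _ (.inr h) hs)
      refine ⟨C, h1, fun σ h0 h3 => le_of_eq_of_le (congrArg _ ?_) (h2 σ h0 h3)⟩
      have h4 : (σ : ℂ) ≠ 0 := by exact_mod_cast h0.ne'
      have h5 : (1 + σ : ℂ) ≠ 1 := by simpa using h4
      have h6 := LFunction_ne_zero_of_one_le_re (1 : DirichletCharacter ℂ q) (.inr h5) (re_gt h0).le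
      rw [e σ h0, if_pos rfl, deriv_LFunctionTrivChar₁_apply_of_ne_one q h5, LFunctionTrivChar₁,
        Function.update_of_ne h5, add_sub_cancel_left, LFunctionTrivChar]
      push_cast
      field_simp
      ring
    · obtain ⟨C, h1, h2⟩ := cpt ((continuousOn_neg_logDeriv_LFunction_of_nontriv h).mono
        fun s hs => LFunction_ne_zero_of_one_le_re _ (.inl h) hs)
      exact ⟨C, h1, fun σ h0 h3 => by rw [e σ h0, if_neg h, sub_zero]; exact h2 σ h0 h3⟩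
  choose C h1 h2 using key
  have h3 : ∀ χ ∈ univ, 0 ≤ C χ := fun χ _ => zero_le_one.trans (h1 χ)
  exact ⟨∑ χ, C χ, sum_nonneg h3, fun χ σ h0 h4 =>
    (h2 χ σ h0 h4).trans (single_le_sum h3 (mem_univ χ))⟩

theorem sq_mod (a : ℤ) (h : 8 ∣ a - 1) (k : ℕ) : ∃ x : ℤ, Odd x ∧ 2 ^ (k + 3) ∣ x ^ 2 - a := by
  induction k with
  | zero => exact ⟨1, odd_one, by simpa using dvd_sub_comm.1 h⟩
  | succ k ih =>
    obtain ⟨x, ⟨y, rfl⟩, m, hm⟩ := ih
    rcases Int.even_or_odd' m with ⟨z, rfl | rfl⟩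
    · exact ⟨2 * y + 1, ⟨y, rfl⟩, z, by rw [hm]; ring⟩
    · exact ⟨2 * y + 1 + 2 ^ (k + 2), ⟨y + 2 ^ (k + 1), by ring⟩, z + y + 1 + 2 ^ k, by
        linear_combination hm⟩

/-- real characters come from the modulus eight -/
theorem real {k : ℕ} (hk : 1 ≤ k) (ψ : DirichletCharacter ℂ (2 ^ k)) (h : ψ ^ 2 = 1) :
    ∃ χ : DirichletCharacter ℂ 8, (χ = 1 ↔ ψ = 1) ∧ ∀ n : ℕ, ψ n = χ n := by
  have d1 : 2 ^ k ∣ 2 ^ (k + 3) := pow_dvd_pow 2 (by omega)
  have d2 : 8 ∣ 2 ^ (k + 3) := ⟨2 ^ k, by ring⟩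
  have co : ∀ x : ℤ, Odd x → ∀ j : ℕ, IsCoprime x ((2 ^ j : ℕ) : ℤ) := fun x hx j => by
    push_cast
    exact (Int.isCoprime_two_right.2 hx).pow_right
  obtain ⟨_, χ, e⟩ : FactorsThrough (changeLevel d1 ψ) 8 := by
    refine (factorsThrough_iff_ker_unitsMap d2).2 fun u hu => Units.ext ?_
    have h1 : (((u : ZMod (2 ^ (k + 3))).val : ℤ) : ZMod 8) = (1 : ℤ) := by
      have := congrArg Units.val (MonoidHom.mem_ker.1 hu)
      rw [ZMod.unitsMap_val] at this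
      simpa using this
    obtain ⟨x, hx, h2⟩ := sq_mod _ ((ZMod.intCast_eq_intCast_iff_dvd_sub _ _ 8).1 h1.symm) k
    have h3 : (u : ZMod (2 ^ (k + 3))) = (x : ZMod (2 ^ (k + 3))) ^ 2 := by
      have := (ZMod.intCast_eq_intCast_iff_dvd_sub _ _ (2 ^ (k + 3))).2 (by exact_mod_cast h2)
      simpa using this
    have h4 : IsUnit (x : ZMod (2 ^ (k + 3))) := (ZMod.coe_int_isUnit_iff_isCoprime _ _).2
      (co x hx _).symm
    rw [MulChar.coe_toUnitHom, h3, map_pow, ← MulChar.pow_apply' _ two_ne_zero, ← map_pow, h,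
      map_one, MulChar.one_apply h4, Units.val_one]
  refine ⟨χ, by rw [← changeLevel_eq_one_iff d2, ← e, changeLevel_eq_one_iff], fun n => ?_⟩
  rcases Nat.even_or_odd n with hn | hn
  · have nu : ∀ j, 1 ≤ j → ¬IsUnit (n : ZMod (2 ^ j)) := fun j hj hu => by
      rw [ZMod.isUnit_iff_coprime, Nat.coprime_pow_right_iff hj, Nat.coprime_two_right] at hu
      exact Nat.not_odd_iff_even.2 hn hu
    rw [MulChar.map_nonunit _ (nu k hk), MulChar.map_nonunit χ (nu 3 (by norm_num))]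
  · have h1 := co n (by exact_mod_cast hn) (k + 3)
    have h2 := changeLevel_eq_cast_of_dvd' ψ d1 h1
    rw [e, changeLevel_eq_cast_of_dvd' χ _ h1] at h2
    exact_mod_cast h2.symm

theorem triv : ∃ C : ℝ, 1 ≤ C ∧ ∀ k : ℕ, 1 ≤ k → ∀ σ : ℝ, 0 < σ → σ ≤ 1 →
    ‖LSeries (fun n : ℕ => ((1 : DirichletCharacter ℂ (2 ^ k)) n : ℂ)) (1 + σ)‖ ≤ C / σ := by
  obtain ⟨C, h1, h2⟩ := cpt (differentiable_LFunctionTrivChar₁ 8).continuous.continuousOn
  refine ⟨C, h1, fun k hk σ h0 h3 => ?_⟩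
  obtain ⟨χ, h4, h5⟩ := real hk 1 (one_pow 2)
  have h6 : (1 + σ : ℂ) ≠ 1 := by simpa using h0.ne'
  have h7 := h2 σ h0 h3
  rw [LFunctionTrivChar₁, Function.update_of_ne h6, add_sub_cancel_left, LFunctionTrivChar,
    LFunction_eq_LSeries _ (re_gt h0), norm_mul, Complex.norm_real, Real.norm_of_nonneg h0.le,
    ← h4.2 rfl] at h7
  rw [le_div_iff₀' h0, funext h5]
  exact h7

/-- the lower bound for complex characters -/
theorem low : ∃ c : ℝ, 0 < c ∧ ∀ (k : ℕ) (ψ : DirichletCharacter ℂ (2 ^ k)) (σ : ℝ), 1 ≤ k →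
    ψ ^ 2 ≠ 1 → 0 < σ → σ ≤ 1 → c / (k + 2) ^ 7 ≤ ‖LSeries (fun n : ℕ => (ψ n : ℂ)) (1 + σ)‖ := by
  obtain ⟨C, hC, h1⟩ := triv
  refine ⟨1 / (16 * C ^ 3), by positivity, fun k ψ σ hk h h0 h2 => ?_⟩
  set c : ℝ := 1 / (16 * C ^ 3) with hc
  set K : ℝ := k + 2 with hK
  have hc0 : 0 < c := by positivity
  have hK1 : 1 ≤ K := by
    have : (0 : ℝ) ≤ k := k.cast_nonneg
    linarith
  have hψ : ψ ≠ 1 := fun e => h (by rw [e, one_pow])
  have big : ∀ τ : ℝ, c / K ^ 9 ≤ τ → τ ≤ 1 → 2 * c / K ^ 7 ≤ ‖LSeries (fun n : ℕ => (ψ n : ℂ)) (1 + τ)‖ := by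
    intro τ t1 t2
    have t0 : 0 < τ := lt_of_lt_of_le (by positivity) t1
    have h3 := norm_LSeries_product_ge_one ψ t0 0
    simp only [Complex.ofReal_zero, mul_zero, add_zero, norm_mul, norm_pow] at h3
    have h4 : ‖LSeries (fun n : ℕ => ((1 : DirichletCharacter ℂ (2 ^ k)) n : ℂ)) (1 + τ)‖ ≤ C / (c / K ^ 9) :=
      (h1 k hk τ t0 t2).trans (div_le_div_of_nonneg_left (by linarith) (by positivity) t1)
    have h5 : 1 ≤ (C / (c / K ^ 9)) ^ 3 * ‖LSeries (fun n : ℕ => (ψ n : ℂ)) (1 + τ)‖ ^ 4 * K :=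
      h3.le.trans (by gcongr; exact bd0 hk h t0)
    refine le_of_pow_le_pow_left₀ (n := 4) (by norm_num) (norm_nonneg _) ?_
    have e : (2 * c / K ^ 7) ^ 4 * ((C / (c / K ^ 9)) ^ 3 * K) = 1 := by
      rw [hc]
      field_simp
      ring
    refine le_of_mul_le_mul_right (a := (C / (c / K ^ 9)) ^ 3 * K) ?_ (by positivity)
    rw [e]
    linarith
  have e1 : 2 * c / K ^ 7 = c / K ^ 7 + c / K ^ 7 := by ring
  have p1 : 0 < c / K ^ 7 := by positivity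
  rcases le_total (c / K ^ 9) σ with h3 | h3
  · linarith [big σ h3 h2]
  · have h4 : c / K ^ 9 ≤ 1 := by
      refine div_le_one_of_le₀ (le_trans ?_ (one_le_pow₀ hK1)) (by positivity)
      have : 1 ≤ C ^ 3 := one_le_pow₀ hC
      exact div_le_one_of_le₀ (by linarith) (by positivity)
    have h5 := big _ le_rfl h4
    have h6 := lip hk hψ h0 h3
    have h7 : K ^ 2 * (c / K ^ 9 - σ) ≤ c / K ^ 7 := by
      have : K ^ 2 * (c / K ^ 9) = c / K ^ 7 := by field_simp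
      have : 0 ≤ K ^ 2 * σ := by positivity
      linarith [mul_sub (K ^ 2) (c / K ^ 9) σ]
    linarith [norm_sub_norm_le (LSeries (fun n : ℕ => (ψ n : ℂ)) (1 + (c / K ^ 9 : ℝ))) (LSeries (fun n : ℕ => (ψ n : ℂ)) (1 + σ))]

/-- prime powers -/
theorem powers : ∃ C : ℝ, 0 ≤ C ∧ ∀ (q : ℕ) (ψ : DirichletCharacter ℂ q) (σ : ℝ), 0 < σ →
    ‖(∑' p : ℕ, if p.Prime then ψ p * ((Real.log p * pw σ p : ℝ) : ℂ) else 0) -
      LSeries ((fun n : ℕ => (ψ n : ℂ)) * (fun n : ℕ => (Λ n : ℂ))) (1 + σ)‖ ≤ C := by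
  have hs : Summable fun n : ℕ => (if n.Prime then 0 else Λ n) / n := by
    simpa [vonMangoldt.residueClass, Subsingleton.elim _ (0 : ZMod 1)] using
      vonMangoldt.summable_residueClass_non_primes_div (0 : ZMod 1)
  refine ⟨∑' n : ℕ, (if n.Prime then 0 else Λ n) / n, tsum_nonneg fun n => ?_, fun q ψ σ hσ => ?_⟩
  · split_ifs
    · simp
    · exact div_nonneg vonMangoldt_nonneg n.cast_nonneg
  set b : ℕ → ℂ := fun n => if n.Prime then 0 else ψ n * ((Λ n * pw σ n : ℝ) : ℂ) with hb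
  have h1 : ∀ n, ‖b n‖ ≤ (if n.Prime then 0 else Λ n) / n := fun n => by
    simp only [hb]
    split_ifs
    · simp
    · rw [norm_mul, Complex.norm_real,
        Real.norm_of_nonneg (mul_nonneg vonMangoldt_nonneg (pw_nonneg σ n)), div_eq_mul_one_div]
      exact (mul_le_of_le_one_left (mul_nonneg vonMangoldt_nonneg (pw_nonneg σ n))
        (ψ.norm_le_one _)).trans (mul_le_mul_of_nonneg_left (pw_le hσ n) vonMangoldt_nonneg)
  have h2 : Summable (LSeries.term ((fun n : ℕ => (ψ n : ℂ)) * (fun n : ℕ => (Λ n : ℂ))) (1 + σ)) :=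
    LSeriesSummable_twist_vonMangoldt ψ (re_gt hσ)
  have e : (fun p : ℕ => if p.Prime then ψ p * ((Real.log p * pw σ p : ℝ) : ℂ) else 0) =
      fun n => LSeries.term ((fun n : ℕ => (ψ n : ℂ)) * (fun n : ℕ => (Λ n : ℂ))) (1 + σ) n - b n := funext fun n => by
    rw [term_eq _ hσ]
    simp only [hb, Pi.mul_apply]
    split_ifs with h
    · rw [vonMangoldt_apply_prime h, sub_zero, Complex.ofReal_mul, mul_assoc]
    · rw [Complex.ofReal_mul, mul_assoc, sub_self]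
  rw [e, h2.tsum_sub (hs.of_norm_bounded h1), LSeries, sub_sub_cancel_left, norm_neg]
  exact tsum_of_norm_bounded hs.hasSum h1

end LOG

open LOG in
theorem rowLOG : SLOG := by
  obtain ⟨C₁, p1, h1⟩ := powers
  obtain ⟨C₂, p2, h2⟩ := fixed 8
  obtain ⟨c, p3, h3⟩ := low
  refine ⟨C₁ + C₂ + 512 / c, fun k ψ σ hk h0 h4 => ?_⟩
  have hk0 : (0 : ℝ) ≤ k := k.cast_nonneg
  have hp : (1 : ℝ) ≤ (k + 1) ^ 10 := one_le_pow₀ (by linarith)
  have p4 : 0 ≤ 512 / c * ((k : ℝ) + 1) ^ 10 := by positivity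
  have q1 := le_mul_of_one_le_right p1 hp
  have q2 := le_mul_of_one_le_right p2 hp
  refine (norm_sub_le_norm_sub_add_norm_sub _ (LSeries ((fun n : ℕ => (ψ n : ℂ)) * (fun n : ℕ => (Λ n : ℂ))) (1 + σ)) _).trans ?_
  have h5 := h1 _ ψ σ h0
  rw [add_mul, add_mul]
  by_cases h : ψ ^ 2 = 1
  · obtain ⟨χ, e1, e2⟩ := real hk ψ h
    have h6 := h2 χ σ h0 h4
    simp only [e1, ← e2] at h6
    linarith
  · have hψ : ψ ≠ 1 := fun e => h (by rw [e, one_pow])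
    have h6 : ‖LSeries ((fun n : ℕ => (ψ n : ℂ)) * (fun n : ℕ => (Λ n : ℂ))) (1 + σ)‖ ≤ 512 / c * ((k : ℝ) + 1) ^ 10 := by
      rw [LSeries_twist_vonMangoldt_eq ψ (re_gt h0), norm_div, norm_neg]
      refine (div_le_div₀ (by positivity) (bd1 hk hψ h0) (by positivity)
        (h3 k ψ σ hk h h0 h4)).trans ?_
      have h7 : ((k : ℝ) + 2) ^ 9 ≤ 512 * ((k : ℝ) + 1) ^ 10 :=
        calc ((k : ℝ) + 2) ^ 9 ≤ (2 * ((k : ℝ) + 1)) ^ 9 := by gcongr; linarith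
          _ = 512 * ((k : ℝ) + 1) ^ 9 := by ring
          _ ≤ _ := by gcongr; exacts [by linarith, by norm_num]
      calc _ = ((k : ℝ) + 2) ^ 9 / c := by field_simp
        _ ≤ 512 * ((k : ℝ) + 1) ^ 10 / c := by gcongr
        _ = _ := by ring
    rw [if_neg hψ, sub_zero]
    linarith

end Pool.Agent.MP_1246c0_nt.H12
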