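import Pool.Agent.MP_1246c0_nt.H12.SpecA

/-! The layers of the tower over the quadratic field. -/

namespace Pool.Agent.MP_1246c0_nt.H12

open NumberField IntermediateField

namespace TW

theorem map_tw {R S : Type} [Ring R] [Ring S] (f : R →+* S) (n : ℕ) (x : R) :
    f (tw^[n] x) = tw^[n] (f x) := by
  induction n generalizing x with
  | zero => rfl
  | succ n ih =>
    rw [Function.iterate_succ_apply, Function.iterate_succ_apply, ih]
    congr 1
    simp only [tw, map_sub, map_pow, map_ofNat]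

theorem tw_cube {R : Type} [CommRing R] (n : ℕ) (x : R) :
    tw^[n] (x ^ 3 - 3 * x) = (tw^[n] x) ^ 3 - 3 * tw^[n] x := by
  induction n generalizing x with
  | zero => rfl
  | succ n ih =>
    rw [Function.iterate_succ_apply, Function.iterate_succ_apply, ← ih]
    congr 1
    simp only [tw]
    ring

/-- `L` is `F` with a square root of `d` adjoined. -/
structure Qd {F L : Type} [Field F] [Field L] (j : F →+* L) (s : L) (d : ℕ) : Prop where
  sq : s ^ 2 = d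
  span : ∀ y, ∃ a b, y = j a + j b * s
  ind : ∀ a b, j a + j b * s = 0 → b = 0

section Gen

variable {F L L' : Type} [Field F] [Field L] [Field L']

theorem Qd.inj {j : F →+* L} {s : L} {d : ℕ} (h : Qd j s d) {a b a' b' : F}
    (e : j a + j b * s = j a' + j b' * s) : a = a' ∧ b = b' := by
  have hb : b - b' = 0 := h.ind (a - a') (b - b') (by
    rw [map_sub, map_sub]
    linear_combination e)
  have hb' : b = b' := sub_eq_zero.1 hb
  subst hb'
  exact ⟨j.injective (add_right_cancel e), rfl⟩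

theorem Qd.lift {j : F →+* L} {s : L} {d : ℕ} (h : Qd j s d) (i : F →+* L') (t : L')
    (ht : t ^ 2 = d) : ∃ f : L →+* L', (∀ a, f (j a) = i a) ∧ f s = t := by
  choose p q hpq using h.span
  have key : ∀ a b, i (p (j a + j b * s)) + i (q (j a + j b * s)) * t = i a + i b * t := by
    intro a b
    obtain ⟨h1, h2⟩ := h.inj (hpq (j a + j b * s))
    rw [← h1, ← h2]
  refine ⟨⟨⟨⟨fun y => i (p y) + i (q y) * t, ?_⟩, ?_⟩, ?_, ?_⟩, ?_, ?_⟩
  · simpa using key 1 0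
  · intro x y
    have e : x * y = j (p x * p y + q x * q y * d) + j (p x * q y + q x * p y) * s := by
      conv_lhs => rw [hpq x, hpq y]
      simp only [map_add, map_mul, map_natCast]
      rw [← h.sq]
      ring
    have := key (p x * p y + q x * q y * d) (p x * q y + q x * p y)
    rw [← e] at this
    change i (p (x * y)) + i (q (x * y)) * t = (i (p x) + i (q x) * t) * (i (p y) + i (q y) * t)
    rw [this]
    simp only [map_add, map_mul, map_natCast]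
    rw [← ht]
    ring
  · simpa using key 0 0
  · intro x y
    have e : x + y = j (p x + p y) + j (q x + q y) * s := by
      conv_lhs => rw [hpq x, hpq y]
      simp only [map_add]
      ring
    have := key (p x + p y) (q x + q y)
    rw [← e] at this
    change i (p (x + y)) + i (q (x + y)) * t = i (p x) + i (q x) * t + (i (p y) + i (q y) * t)
    rw [this]
    simp only [map_add]
    ring
  · intro a
    simpa using key a 0
  · simpa using key 0 1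

theorem Qd.rank [NumberField F] [NumberField L] {j : F →+* L} {s : L} {d : ℕ} (h : Qd j s d) :
    Module.finrank ℚ L = 2 * Module.finrank ℚ F := by
  let f : F × F →+ L :=
    { toFun := fun x => j x.1 + j x.2 * s
      map_zero' := by simp
      map_add' := fun x y => by
        simp only [Prod.fst_add, Prod.snd_add, map_add]
        ring }
  have hf : Function.Bijective f.toRatLinearMap := by
    refine ⟨fun x y e => ?_, fun y => ?_⟩
    · obtain ⟨h1, h2⟩ := h.inj (show j x.1 + j x.2 * s = j y.1 + j y.2 * s from e)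
      exact Prod.ext h1 h2
    · obtain ⟨a, b, e⟩ := h.span y
      exact ⟨(a, b), e.symm⟩
  rw [← (LinearEquiv.ofBijective _ hf).finrank_eq, Module.finrank_prod, two_mul]

theorem aut [NumberField L] (g : L →+* L) : ∃ e : L ≃ₐ[ℚ] L, ∀ a, e a = g a :=
  ⟨AlgEquiv.ofBijective g.toRatAlgHom g.toRatAlgHom.bijective, fun _ => rfl⟩

theorem restr (f : F →+* L) (j : L' →+* L) (h : ∀ a, f a ∈ j.range) :
    ∃ g : F →+* L', ∀ a, j (g a) = f a := by
  choose g hg using h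
  refine ⟨⟨⟨⟨g, ?_⟩, ?_⟩, ?_, ?_⟩, hg⟩
  · exact j.injective (by rw [hg, map_one, map_one])
  · intro x y
    exact j.injective (by simp only [hg, map_mul])
  · exact j.injective (by simp only [hg, map_zero])
  · intro x y
    exact j.injective (by simp only [hg, map_add])

theorem hom_ext [NumberField F] [CharZero L] {θ : F} (h : adjoin ℚ {θ} = ⊤) (f g : F →+* L)
    (e : f θ = g θ) (x : F) : f x = g x := by
  have hx : x ∈ adjoin ℚ {θ} := h ▸ mem_top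
  induction hx using adjoin_induction with
  | mem x hx => rwa [Set.mem_singleton_iff.1 hx]
  | algebraMap x => simp
  | add x y _ _ h1 h2 => rw [map_add, map_add, h1, h2]
  | inv x _ h1 => rw [map_inv₀, map_inv₀, h1]
  | mul x y _ _ h1 h2 => rw [map_mul, map_mul, h1, h2]

theorem pow_comm' [NumberField F] [NumberField L] (j : F →+* L) (γ₀ : F ≃ₐ[ℚ] F) (γ : L ≃ₐ[ℚ] L)
    (h : ∀ a, γ (j a) = j (γ₀ a)) (k : ℕ) (a : F) : (γ ^ k) (j a) = j ((γ₀ ^ k) a) := by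
  induction k generalizing a with
  | zero => rfl
  | succ k ih => rw [pow_succ, pow_succ, AlgEquiv.mul_apply, AlgEquiv.mul_apply, h, ih]

theorem pow_fix [NumberField L] (γ : L ≃ₐ[ℚ] L) (s : L) (h : γ s = s) (k : ℕ) :
    (γ ^ k) s = s := by
  induction k with
  | zero => rfl
  | succ k ih => rw [pow_succ, AlgEquiv.mul_apply, h, ih]

end Gen

section Base

variable {L : Type} [Field L] [NumberField L] {d M : ℕ} {s θ : L} {σ γ : L ≃ₐ[ℚ] L}

theorem s_ne (h : Tw L d M s θ σ γ) : s ≠ 0 := by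
  intro e
  have h1 := h.sq
  rw [e, zero_pow two_ne_zero, eq_comm, Nat.cast_eq_zero] at h1
  have := h.md
  omega

theorem neg_ne (h : Tw L d M s θ σ γ) : -s ≠ s := fun e =>
  s_ne h (by linear_combination (-1 / 2 : L) * e)

/-- the subfield generated by `θ` -/
structure Bs (d M : ℕ) (s θ : L) (σ γ : L ≃ₐ[ℚ] L) {F : Type} [Field F] [NumberField F]
    (θ₀ : F) (γ₀ : F ≃ₐ[ℚ] F) (j : F →+* L) : Prop where
  cy : Cy F M θ₀ γ₀
  qd : Qd j s d
  jt : j θ₀ = θ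
  sj : ∀ a, σ (j a) = j a
  gj : ∀ a, γ (j a) = j (γ₀ a)

theorem base' (h : Tw L d M s θ σ γ) {F : Type} [Field F] [NumberField F] (j : F →+* L)
    (hj : ∀ y, y ∈ j.range ↔ y ∈ adjoin ℚ {θ}) :
    ∃ (θ₀ : F) (γ₀ : F ≃ₐ[ℚ] F), Bs d M s θ σ γ θ₀ γ₀ j := by
  have hθ : θ ∈ adjoin ℚ {θ} := mem_adjoin_simple_self ℚ θ
  obtain ⟨θ₀, h₀⟩ := (hj θ).2 hθ
  have gen : adjoin ℚ {θ₀} = ⊤ := by
    refine eq_top_iff.2 fun a _ => ?_
    have ha : j a ∈ (adjoin ℚ {θ₀}).map j.toRatAlgHom := by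
      rw [adjoin_map, Set.image_singleton]
      exact h₀ ▸ (hj _).1 ⟨a, rfl⟩
    obtain ⟨a', h1, h2⟩ := ha
    rwa [← j.injective h2]
  have hγ : ∀ a, (γ.toAlgHom.toRingHom.comp j) a ∈ j.range := by
    intro a
    have h1 : adjoin ℚ {θ} ≤ (adjoin ℚ {θ}).comap γ.toAlgHom := by
      rw [adjoin_simple_le_iff]
      change γ θ ∈ adjoin ℚ {θ}
      rw [h.gt]
      exact sub_mem (pow_mem hθ 3) (mul_mem (ofNat_mem _ 3) hθ)
    exact (hj _).2 (h1 ((hj _).1 ⟨a, rfl⟩))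
  obtain ⟨g, hg⟩ := restr _ j hγ
  obtain ⟨γ₀, hγ₀⟩ := aut g
  have gj : ∀ a, γ (j a) = j (γ₀ a) := fun a => by rw [hγ₀, hg]; rfl
  have sj : ∀ a, σ (j a) = j a :=
    hom_ext gen (σ.toAlgHom.toRingHom.comp j) j (by
      change σ (j θ₀) = j θ₀
      rw [h₀, h.st])
  have qd : Qd j s d := by
    refine ⟨h.sq, fun y => ?_, fun a b e => ?_⟩
    · have hy : y ∈ Algebra.adjoin ℚ {s, θ} := by
        rw [← adjoin_toSubalgebra_of_isAlgebraic fun x _ => Algebra.IsAlgebraic.isAlgebraic x,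
          h.gen]
        trivial
      induction hy using Algebra.adjoin_induction with
      | mem x hx =>
        rcases hx with rfl | rfl
        · exact ⟨0, 1, by simp⟩
        · exact ⟨θ₀, 0, by simp [h₀]⟩
      | algebraMap r => exact ⟨r, 0, by simp⟩
      | add x y _ _ h1 h2 =>
        obtain ⟨a, b, rfl⟩ := h1
        obtain ⟨a', b', rfl⟩ := h2
        exact ⟨a + a', b + b', by simp only [map_add]; ring⟩
      | mul x y _ _ h1 h2 =>
        obtain ⟨a, b, rfl⟩ := h1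
        obtain ⟨a', b', rfl⟩ := h2
        refine ⟨a * a' + b * b' * d, a * b' + b * a', ?_⟩
        simp only [map_add, map_mul, map_natCast]
        rw [← h.sq]
        ring
    · have e' := congrArg σ e
      rw [map_add, map_mul, sj, sj, h.ss, map_zero] at e'
      have h1 : j b * s = 0 := by linear_combination (1 / 2 : L) * e - (1 / 2 : L) * e'
      exact (map_eq_zero j).1 ((mul_eq_zero.1 h1).resolve_right (s_ne h))
  refine ⟨θ₀, γ₀, ⟨?_, gen, ?_, ?_⟩, qd, h₀, sj, gj⟩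
  · have h1 := qd.rank
    rw [h.rk, pow_succ] at h1
    omega
  · exact j.injective (by rw [map_tw, h₀, h.root, map_zero])
  · refine j.injective ?_
    rw [← gj, h₀, h.gt, map_sub, map_mul, map_pow, map_ofNat, h₀]

theorem base (h : Tw L d M s θ σ γ) : ∃ (F : Type) (_ : Field F) (_ : NumberField F) (θ₀ : F)
    (γ₀ : F ≃ₐ[ℚ] F) (j : F →+* L), Bs d M s θ σ γ θ₀ γ₀ j := by
  obtain ⟨θ₀, γ₀, hb⟩ := base' h (F := adjoin ℚ {θ}) (algebraMap _ L) fun y =>
    ⟨fun ⟨a, e⟩ => e ▸ a.2, fun hy => ⟨⟨y, hy⟩, rfl⟩⟩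
  exact ⟨_, _, _, θ₀, γ₀, _, hb⟩

variable {F : Type} [Field F] [NumberField F] {θ₀ : F} {γ₀ : F ≃ₐ[ℚ] F} {j : F →+* L}

theorem Bs.ext (b : Bs d M s θ σ γ θ₀ γ₀ j) {L' : Type} [Field L'] (f g : L →+* L')
    (h1 : ∀ a, f (j a) = g (j a)) (h2 : f s = g s) (y : L) : f y = g y := by
  obtain ⟨x, z, rfl⟩ := b.qd.span y
  simp only [map_add, map_mul, h1, h2]

theorem Bs.aext (b : Bs d M s θ σ γ θ₀ γ₀ j) (f g : L ≃ₐ[ℚ] L)
    (h1 : ∀ a, f (j a) = g (j a)) (h2 : f s = g s) : f = g :=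
  AlgEquiv.ext (b.ext f.toAlgHom.toRingHom g.toAlgHom.toRingHom h1 h2)

theorem Bs.fixs (b : Bs d M s θ σ γ θ₀ γ₀ j) (h : Tw L d M s θ σ γ) (y : L) (hy : σ y = y) :
    y ∈ j.range := by
  obtain ⟨x, z, rfl⟩ := b.qd.span y
  rw [map_add, map_mul, b.sj, b.sj, h.ss] at hy
  have h1 : j z * s = 0 := by linear_combination (-1 / 2 : L) * hy
  exact ⟨x, by rw [h1, add_zero]⟩

theorem gal (C : SCY) (h : Tw L d M s θ σ γ) : IsGalois ℚ L ∧
    (∀ g : L ≃ₐ[ℚ] L, ∃ k : ℕ, g = γ ^ k ∨ g = σ * γ ^ k) ∧ σ * σ = 1 ∧ σ * γ = γ * σ ∧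
    orderOf γ = 2 ^ M ∧ (∀ k : ℕ, σ ≠ γ ^ k) ∧ IsTotallyReal L := by
  obtain ⟨F, _, _, θ₀, γ₀, j, b⟩ := base h
  obtain ⟨hG, hcyc, hord, -⟩ := C.gal F M θ₀ γ₀ b.cy
  have hp := pow_comm' j γ₀ γ b.gj
  have hs := pow_fix γ s h.gs
  refine ⟨?_, fun g => ?_, ?_, ?_, ?_, fun k e => ?_, ⟨fun w => ?_⟩⟩
  · refine IsGalois.of_fixedField_eq_bot ℚ L (eq_bot_iff.2 fun y hy => ?_)
    rw [mem_fixedField_iff] at hy
    obtain ⟨a, rfl⟩ := b.fixs h y (hy σ trivial)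
    obtain ⟨r, rfl⟩ := (IsGalois.mem_range_algebraMap_iff_fixed (F := ℚ) a).2 fun f => by
      obtain ⟨k, rfl⟩ := hcyc f
      exact j.injective (by rw [← hp, hy _ trivial])
    exact ⟨r, by simp⟩
  · let := j.toAlgebra
    have : IsScalarTower ℚ F L := IsScalarTower.of_algebraMap_eq' (Subsingleton.elim _ _)
    obtain ⟨k, hk⟩ := hcyc (g.restrictNormal F)
    have hg : ∀ a, g (j a) = (γ ^ k) (j a) := fun a => by
      rw [hp, ← hk]
      exact (g.restrictNormal_commutes F a).symm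
    have h2 : g s ^ 2 = s ^ 2 := by rw [← map_pow, h.sq, map_natCast]
    rcases sq_eq_sq_iff_eq_or_eq_neg.1 h2 with e | e
    · exact ⟨k, Or.inl (b.aext _ _ hg (by rw [e, hs]))⟩
    · refine ⟨k, Or.inr (b.aext _ _ (fun a => ?_) ?_)⟩
      · rw [hg, AlgEquiv.mul_apply, hp, b.sj]
      · rw [e, AlgEquiv.mul_apply, hs, h.ss]
  · refine b.aext _ _ (fun a => ?_) ?_
    · rw [AlgEquiv.mul_apply, b.sj, b.sj, AlgEquiv.one_apply]
    · rw [AlgEquiv.mul_apply, h.ss, map_neg, h.ss, neg_neg, AlgEquiv.one_apply]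
  · refine b.aext _ _ (fun a => ?_) ?_
    · rw [AlgEquiv.mul_apply, AlgEquiv.mul_apply, b.gj, b.sj, b.sj, b.gj]
    · rw [AlgEquiv.mul_apply, AlgEquiv.mul_apply, h.gs, h.ss, map_neg, h.gs]
  · rw [← hord, orderOf_eq_orderOf_iff]
    refine fun k => ⟨fun e => AlgEquiv.ext fun a => j.injective ?_, fun e => b.aext _ _ ?_ (hs k)⟩
    · rw [← hp, e, AlgEquiv.one_apply, AlgEquiv.one_apply]
    · intro a
      rw [hp, e, AlgEquiv.one_apply, AlgEquiv.one_apply]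
  · exact neg_ne h (by rw [← h.ss, e, hs])
  · have := (C.real F M θ₀ γ₀ b.cy).1
    rw [InfinitePlace.isReal_iff, ComplexEmbedding.isReal_iff]
    refine RingHom.ext (b.ext _ _ (fun a => ?_) ?_)
    · exact RingHom.congr_fun (ComplexEmbedding.isReal_iff.1
        (IsTotallyReal.complexEmbedding_isReal (w.embedding.comp j))) a
    · have h1 : w.embedding s ^ 2 = ((√d : ℝ) : ℂ) ^ 2 := by
        rw [← map_pow, h.sq, map_natCast, ← Complex.ofReal_pow, Real.sq_sqrt d.cast_nonneg,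
          Complex.ofReal_natCast]
      rw [ComplexEmbedding.conjugate_coe_eq]
      rcases sq_eq_sq_iff_eq_or_eq_neg.1 h1 with e | e <;> rw [e] <;> simp

theorem emb (C : SCY) (h : Tw L d M s θ σ γ) {m : ℕ} {θ' : F} {γ' : F ≃ₐ[ℚ] F}
    (h' : Cy F m θ' γ') (hm : m ≤ M) : ∃ j : F →+* L, j θ' = tw^[M - m] θ ∧
      (∀ x, j (γ' x) = γ (j x)) ∧ ∀ y, y ∈ j.range ↔ σ y = y ∧ (γ ^ 2 ^ m) y = y := by
  obtain ⟨K, _, _, θ₀, γ₀, j, b⟩ := base h
  obtain ⟨i, h1, h2, h3⟩ := C.emb F K m M θ' γ' θ₀ γ₀ h' b.cy hm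
  have hp := pow_comm' j γ₀ γ b.gj
  refine ⟨j.comp i, ?_, fun x => ?_, fun y => ⟨?_, fun ⟨e1, e2⟩ => ?_⟩⟩
  · rw [RingHom.comp_apply, h1, map_tw, b.jt]
  · rw [RingHom.comp_apply, RingHom.comp_apply, h2, b.gj]
  · rintro ⟨a, rfl⟩
    exact ⟨b.sj _, by rw [RingHom.comp_apply, hp, (h3 _).1 ⟨a, rfl⟩]⟩
  · obtain ⟨a, rfl⟩ := b.fixs h y e1
    obtain ⟨c, rfl⟩ := (h3 a).2 (j.injective (by rw [← hp, e2]))
    exact ⟨c, rfl⟩

theorem sub (C : SCY) (h : Tw L d M s θ σ γ) {L' : Type} [Field L'] [NumberField L'] {m : ℕ}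
    {s' θ' : L'} {σ' γ' : L' ≃ₐ[ℚ] L'} (h' : Tw L' d m s' θ' σ' γ') (hm : m ≤ M) :
    ∃ j : L' →+* L, j s' = s ∧ j θ' = tw^[M - m] θ ∧ (∀ x, j (σ' x) = σ (j x)) ∧
      (∀ x, j (γ' x) = γ (j x)) ∧ ∀ y, y ∈ j.range ↔ (γ ^ 2 ^ m) y = y := by
  obtain ⟨K, _, _, θ₀, γ₀, j, b⟩ := base h
  obtain ⟨K', _, _, θ₁, γ₁, j', b'⟩ := base h'
  obtain ⟨i, h1, h2, h3⟩ := C.emb K' K m M θ₁ γ₁ θ₀ γ₀ b'.cy b.cy hm
  obtain ⟨f, f1, f2⟩ := b'.qd.lift (j.comp i) s h.sq
  have hp := pow_comm' j γ₀ γ b.gj (2 ^ m)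
  have hs := pow_fix γ s h.gs (2 ^ m)
  simp only [RingHom.comp_apply] at f1
  refine ⟨f, f2, ?_, fun x => ?_, fun x => ?_, fun y => ⟨?_, fun e => ?_⟩⟩
  · rw [← b'.jt, f1, h1, map_tw, b.jt]
  · obtain ⟨a, c, rfl⟩ := b'.qd.span x
    simp only [map_add, map_mul, map_neg, b'.sj, h'.ss, f1, f2, b.sj, h.ss]
  · obtain ⟨a, c, rfl⟩ := b'.qd.span x
    simp only [map_add, map_mul, b'.gj, h'.gs, f1, f2, b.gj, h.gs, h2]
  · rintro ⟨x, rfl⟩
    obtain ⟨a, c, rfl⟩ := b'.qd.span x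
    simp only [map_add, map_mul, f1, f2, hp, hs, (h3 _).1 ⟨a, rfl⟩, (h3 _).1 ⟨c, rfl⟩]
  · obtain ⟨a, c, rfl⟩ := b.qd.span y
    rw [map_add, map_mul, hp, hp, hs] at e
    obtain ⟨e1, e2⟩ := b.qd.inj e
    obtain ⟨a', rfl⟩ := (h3 a).2 e1
    obtain ⟨c', rfl⟩ := (h3 c).2 e2
    exact ⟨j' a' + j' c' * s', by rw [map_add, map_mul, f1, f1, f2]⟩

theorem nsq (C : SCY) {n : ℕ} (h : Cy F n θ₀ γ₀) (hd : d % 8 = 5) (r : F) : r ^ 2 ≠ d := by
  intro e
  obtain ⟨hG, hcyc, hord, -⟩ := C.gal F n θ₀ γ₀ h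
  have key : ∀ (x : F) (c : ℕ), γ₀ x = x → x ^ 2 = c → ∃ m : ℕ, c = m * m := by
    intro x c h1 h2
    obtain ⟨q, rfl⟩ := (IsGalois.mem_range_algebraMap_iff_fixed (F := ℚ) x).2 fun f => by
      obtain ⟨k, rfl⟩ := hcyc f
      exact pow_fix γ₀ x h1 k
    refine Rat.isSquare_natCast_iff.1 ⟨q, (algebraMap ℚ F).injective ?_⟩
    rw [map_natCast, ← h2, map_mul, sq]
  have sq16 : ∀ m : ℕ, m * m % 16 = 0 ∨ m * m % 16 = 1 ∨ m * m % 16 = 4 ∨ m * m % 16 = 9 := by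
    intro m
    rw [Nat.mul_mod]
    have : m % 16 < 16 := Nat.mod_lt _ (by norm_num)
    generalize m % 16 = k at *
    interval_cases k <;> simp
  have h2 : γ₀ r ^ 2 = r ^ 2 := by rw [← map_pow, e, map_natCast]
  have h0 : γ₀ r ≠ r := fun e1 => by
    obtain ⟨m, hm⟩ := key r d e1 e
    have := sq16 m
    omega
  have e1 := (sq_eq_sq_iff_eq_or_eq_neg.1 h2).resolve_left h0
  cases n with
  | zero =>
    rw [pow_zero, orderOf_eq_one_iff] at hord
    exact h0 (by rw [hord, AlgEquiv.one_apply])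
  | succ n =>
    have ht : (tw^[n] θ₀) ^ 2 = 2 := by
      have := h.root
      rw [Function.iterate_succ_apply'] at this
      exact sub_eq_zero.1 this
    have hg : γ₀ (tw^[n] θ₀) = -tw^[n] θ₀ := by
      have := map_tw γ₀.toAlgHom.toRingHom n θ₀
      change γ₀ _ = tw^[n] (γ₀ θ₀) at this
      rw [this, h.act, tw_cube]
      linear_combination (tw^[n] θ₀) * ht
    obtain ⟨m, hm⟩ := key (r * tw^[n] θ₀) (2 * d) (by rw [map_mul, e1, hg, neg_mul_neg])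
      (by rw [mul_pow, e, ht, Nat.cast_mul, Nat.cast_ofNat, mul_comm])
    have := sq16 m
    omega

theorem mk (h : Cy F M θ₀ γ₀) (hd : Squarefree d) (hd' : d % 8 = 5) (q : Qd j s d) :
    ∃ σ γ : L ≃ₐ[ℚ] L, Tw L d M s (j θ₀) σ γ := by
  obtain ⟨f, f1, f2⟩ := q.lift j (-s) (by rw [neg_sq, q.sq])
  obtain ⟨g, g1, g2⟩ := q.lift (j.comp γ₀.toAlgHom.toRingHom) s q.sq
  obtain ⟨σ, hσ⟩ := aut f
  obtain ⟨γ, hγ⟩ := aut g
  refine ⟨σ, γ, hd, hd', q.sq, ?_, ?_, ?_, ?_, ?_, ?_, ?_⟩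
  · rw [q.rank, h.rk, pow_succ, mul_comm]
  · have h1 : (⊤ : IntermediateField ℚ F) ≤ (adjoin ℚ {s, j θ₀}).comap j.toRatAlgHom := by
      rw [← h.gen, adjoin_simple_le_iff]
      exact subset_adjoin ℚ {s, j θ₀} (Or.inr rfl)
    refine eq_top_iff.2 fun y _ => ?_
    obtain ⟨a, c, rfl⟩ := q.span y
    exact add_mem (h1 mem_top) (mul_mem (h1 mem_top) (subset_adjoin ℚ {s, j θ₀} (Or.inl rfl)))
  · rw [← map_tw, h.root, map_zero]
  · rw [hσ, f2]
  · rw [hσ, f1]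
  · rw [hγ, g2]
  · rw [hγ, g1]
    change j (γ₀ θ₀) = _
    rw [h.act, map_sub, map_mul, map_pow, map_ofNat]

end Base

theorem ex (C : SCY) (d M : ℕ) (hd : Squarefree d) (hd' : d % 8 = 5) :
    ∃ (L : Type) (_ : Field L) (_ : NumberField L) (s θ : L) (σ γ : L ≃ₐ[ℚ] L),
      Tw L d M s θ σ γ := by
  obtain ⟨F, _, _, θ, γ, h⟩ := C.ex M
  have : Fact (∀ r : F, r ^ 2 ≠ (d : F) + 0 * r) := ⟨fun r => by simpa using nsq C h hd' r⟩
  have : NumberField (QuadraticAlgebra F d 0) := NumberField.of_module_finite F _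
  have q : Qd (algebraMap F (QuadraticAlgebra F d 0)) QuadraticAlgebra.omega d := by
    refine ⟨?_, fun y => ⟨y.re, y.im, ?_⟩, fun a b e => ?_⟩
    · rw [sq]
      ext <;> simp
    · ext <;> simp
    · simpa using congrArg QuadraticAlgebra.im e
  obtain ⟨σ, γ', H⟩ := mk h hd hd' q
  exact ⟨_, _, _, _, _, σ, γ', H⟩

end TW

theorem rowTW : OfTW := fun C _ =>
  { gal := fun _ _ _ _ _ _ _ _ _ h => TW.gal C h
    emb := fun _ _ _ _ _ _ _ _ _ _ _ _ _ _ _ h h' hm => TW.emb C h h' hm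
    ex := TW.ex C
    sub := fun _ _ _ _ _ _ _ _ _ _ _ _ _ _ _ _ _ h h' hm => TW.sub C h h' hm }

end Pool.Agent.MP_1246c0_nt.H12
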