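import Pool.Agent.MP_1246c0_nt.H25.SpecA

/-! Existence of unramified cyclic extensions: from the tower to a character. -/

namespace Pool.Agent.MP_1246c0_nt.H25

open NumberField IsDedekindDomain Polynomial Finset Matrix Pool.Agent.MP_db5b97_nt.H85
open Pool.Agent.MP_1246c0_nt.H55 (Fund kD)
open Pool.Agent.MP_1246c0_nt.H12

namespace EXC

/-- a cyclic quotient gives a character -/
theorem cyc {G : Type} [Group G] (H K : Subgroup G) (n : ℕ) (hn : n ≠ 0)
    (hc : ∀ g ∈ H, ∀ h ∈ K, g⁻¹ * h * g ∈ K) (hi : K.relIndex H = n) (F : G) (hF : F ∈ H)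
    (ho : ∀ k : ℕ, F ^ k ∈ K ↔ n ∣ k) :
    ∃ ψ : G → ZMod n, (∀ h ∈ H, ∀ h' ∈ H, ψ (h * h') = ψ h + ψ h') ∧ (∃ h ∈ H, ψ h = 1) ∧
      (∀ h ∈ H, ψ h = 0 ↔ h ∈ K) ∧ ∀ h ∈ H, h ^ n ∈ K := by
  classical
  have hN : (K.subgroupOf H).Normal := ⟨fun h hh g => by
    have := hc (g : G)⁻¹ (H.inv_mem g.2) h hh
    rw [inv_inv] at this
    exact this⟩
  have hcard : Nat.card (H ⧸ K.subgroupOf H) = n := hi
  have : Finite (H ⧸ K.subgroupOf H) := Nat.finite_of_card_ne_zero (hcard ▸ hn)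
  have hord : orderOf (QuotientGroup.mk' (K.subgroupOf H) ⟨F, hF⟩) = n := by
    have key : ∀ k : ℕ, orderOf (QuotientGroup.mk' (K.subgroupOf H) ⟨F, hF⟩) ∣ k ↔ n ∣ k := by
      intro k
      rw [orderOf_dvd_iff_pow_eq_one, ← map_pow, QuotientGroup.mk'_apply, QuotientGroup.eq_one_iff,
        ← ho]
      rfl
    exact Nat.dvd_antisymm ((key _).2 dvd_rfl) ((key _).1 dvd_rfl)
  have hcy : IsCyclic (H ⧸ K.subgroupOf H) :=
    isCyclic_of_orderOf_eq_card _ (hord.trans hcard.symm)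
  subst hcard
  let e := (zmodCyclicMulEquiv hcy).symm
  refine ⟨fun h => if hh : h ∈ H then (e (QuotientGroup.mk' _ ⟨h, hh⟩)).toAdd else 0,
    fun h hh h' hh' => ?_, ?_, fun h hh => ?_, fun h hh => ?_⟩
  · simp only [hh, hh', H.mul_mem hh hh', dif_pos]
    rw [← toAdd_mul, ← map_mul, ← map_mul]
    rfl
  · obtain ⟨⟨h, hh⟩, h1⟩ := QuotientGroup.mk'_surjective (K.subgroupOf H)
      (e.symm (Multiplicative.ofAdd 1))
    refine ⟨h, hh, ?_⟩
    simp only [hh, dif_pos]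
    rw [h1, MulEquiv.apply_symm_apply, toAdd_ofAdd]
  · simp only [hh, dif_pos]
    rw [toAdd_eq_zero, map_eq_one_iff _ e.injective, QuotientGroup.mk'_apply,
      QuotientGroup.eq_one_iff]
    rfl
  · exact (K.subgroupOf H).pow_index_mem ⟨h, hh⟩

/-- a character with a unit value takes a unit value at a prime -/
theorem unit {ι : Type} (J : ℕ) (χ : (ι →₀ ℤ) →+ ZMod (2 ^ (J + 1))) (h : ∃ D, IsUnit (χ D)) :
    ∃ w, IsUnit (χ (Finsupp.single w 1)) := by
  obtain ⟨D, hD⟩ := h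
  let φ : ZMod (2 ^ (J + 1)) →+* ZMod 2 := ZMod.castHom (dvd_pow_self 2 J.succ_ne_zero) _
  by_contra hne
  push Not at hne
  have h0 : φ.toAddMonoidHom.comp χ = 0 := by
    refine Finsupp.addHom_ext' fun w => AddMonoidHom.ext_int ?_
    by_contra h1
    refine hne w ?_
    have h2 : φ (χ (Finsupp.single w 1)) ≠ 0 := h1
    rw [← ZMod.natCast_zmod_val (χ (Finsupp.single w 1))] at h2 ⊢
    rw [map_natCast, Ne, ZMod.natCast_eq_zero_iff] at h2
    exact (ZMod.isUnit_iff_coprime _ _).2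
      (Nat.Coprime.pow_right _ ((Nat.prime_two.coprime_iff_not_dvd.2 h2).symm))
  exact (hD.map φ).ne_zero (DFunLike.congr_fun h0 D)

theorem mem_map (E : IntermediateField ℚ Om) (g h : Ga) :
    h ∈ (E.map g.toAlgHom).fixingSubgroup ↔ g⁻¹ * h * g ∈ E.fixingSubgroup := by
  simp only [IntermediateField.mem_fixingSubgroup_iff]
  constructor
  · intro H y hy
    have := H (g y) ⟨y, hy, rfl⟩
    show g.symm (h (g y)) = y
    rw [this, AlgEquiv.symm_apply_apply]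
  · rintro H _ ⟨y, hy, rfl⟩
    have : g.symm (h (g y)) = y := H y hy
    exact (g.symm_apply_eq).1 this

theorem map_self {L : IntermediateField ℚ Om} {g : Ga} (hg : g ∈ L.fixingSubgroup) :
    L.map g.toAlgHom = L := by
  rw [IntermediateField.mem_fixingSubgroup_iff] at hg
  ext y
  constructor
  · rintro ⟨x, hx, rfl⟩
    show g x ∈ L
    rwa [hg x hx]
  · exact fun hy => ⟨y, hy, hg y hy⟩

theorem smul_fix {L : IntermediateField ℚ Om} {g : Ga} (hg : g ∈ L.fixingSubgroup) (x : 𝓞 L) :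
    g • algebraMap (𝓞 L) OO x = algebraMap (𝓞 L) OO x :=
  RingOfIntegers.ext ((IntermediateField.mem_fixingSubgroup_iff _ _).1 hg _ (x : L).2)

theorem norm_pos {L : Type} [Field L] [NumberField L] (w : Sp L) : 0 < Ideal.absNorm w.asIdeal :=
  Nat.pos_of_ne_zero fun h => w.ne_bot (Ideal.absNorm_eq_zero_iff.1 h)

/-- the top of the tower is normal over the bottom -/
theorem nrm (hL : SLIFT) (hB : SBAU) {J : ℕ} {L E : IntermediateField ℚ Om} [NumberField L]
    {χ : Dv L 2 →+ ZMod (2 ^ J)} (hC : Ch J L E) (hT : Tr L E J χ) :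
    ∀ g ∈ L.fixingSubgroup, ∀ h ∈ E.fixingSubgroup, g⁻¹ * h * g ∈ E.fixingSubgroup := by
  intro g hg
  obtain ⟨hLE, hE, -⟩ := hB.fin J L E hC
  have hC' : Ch J L (E.map g.toAlgHom) := by
    have := hB.map J L E g hC
    rwa [map_self hg] at this
  obtain ⟨-, hE', -⟩ := hB.fin J L _ hC'
  have hle : E.map g.toAlgHom ≤ E := by
    refine hB.bau J L E _ hC' hLE fun Q hQ h2 h hh hD => ?_
    have : NumberField ↥(E ⊔ E.map g.toAlgHom) := NumberField.of_module_finite ℚ _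
    obtain ⟨w, hw⟩ := hL.und L Q hQ
    have hw2 : ((2 : ℕ) : 𝓞 L) ∉ w.asIdeal := fun h => h2 (by
      have := (hw _).1 h
      rwa [map_natCast] at this)
    obtain ⟨F, hF, hFb⟩ := hL.frob L Q w hQ hw
    obtain ⟨k, i, hi, hiL, hki⟩ := hL.dec L (E ⊔ E.map g.toAlgHom) Q w F h hQ hw
      (hLE.trans le_sup_left) hF hFb (IntermediateField.fixingSubgroup_le hLE hh) hD
    have hiE := hT.unr Q hQ i hiL hi
    have h1 : F ^ k * i ∈ E.fixingSubgroup := by
      rw [IntermediateField.mem_fixingSubgroup_iff] at hh ⊢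
      intro y hy
      rw [← hki y ((le_sup_left : E ≤ _) hy), hh y hy]
    have h2 := (hT.frb Q ⟨w, hw2⟩ hQ hw F hF hFb k).1 ((Subgroup.mul_mem_cancel_right _ hiE).1 h1)
    obtain ⟨Q', hQ', hmem, hIn, -, hFb'⟩ := hL.cnj Q g hQ
    have hw' : Ov L Q' w := fun x => by rw [hmem, smul_fix hg]; exact hw x
    have hcj : ∀ a ∈ L.fixingSubgroup, g⁻¹ * a * g ∈ L.fixingSubgroup := fun a ha =>
      mul_mem (mul_mem (inv_mem hg) ha) hg
    have h3 := (hT.frb Q' ⟨w, hw2⟩ hQ' hw' _ (hcj F hF) (hFb' _ _ hFb) k).2 h2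
    have h4 := hT.unr Q' hQ' _ (hcj i hiL) (hIn i hi)
    have h5 : F ^ k * i ∈ (E.map g.toAlgHom).fixingSubgroup := by
      rw [mem_map]
      have := mul_mem h3 h4
      have e : (g⁻¹ * F * g) ^ k = g⁻¹ * F ^ k * g := by
        simpa using conj_pow (a := g⁻¹) (b := F) (i := k)
      rw [e] at this
      convert this using 1
      group
    rw [IntermediateField.mem_fixingSubgroup_iff] at h5 ⊢
    intro y hy
    rw [hki y ((le_sup_right : E.map g.toAlgHom ≤ _) hy), h5 y hy]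
  exact fun h hh => (mem_map E g h).1 (IntermediateField.fixingSubgroup_le hle hh)

end EXC

theorem rowEXC : OfEXC := by
  intro hL hW hB J L _ χ hR hRec hOp h0 hU
  obtain ⟨E, hC, hT⟩ := hW J L χ hR hRec h0 hU
  obtain ⟨hLE, hE, hidx⟩ := hB.fin J L E hC
  have hKH : E.fixingSubgroup ≤ L.fixingSubgroup := IntermediateField.fixingSubgroup_le hLE
  have hgen : ∃ F ∈ L.fixingSubgroup, ∀ k : ℕ, F ^ k ∈ E.fixingSubgroup ↔ 2 ^ J ∣ k := by
    rcases J with _ | J
    · exact ⟨1, one_mem _, fun k => by simp⟩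
    · obtain ⟨w, hw⟩ := EXC.unit J χ hU
      obtain ⟨Q, hQ, hov⟩ := hL.ovr L w.1
      obtain ⟨F, hF, hFb⟩ := hL.frob L Q w.1 hQ hov
      refine ⟨F, hF, fun k => ?_⟩
      rw [hT.frb Q w hQ hov F hF hFb k, nsmul_eq_mul, hw.mul_left_eq_zero,
        ZMod.natCast_eq_zero_iff]
  obtain ⟨F0, hF0, ho⟩ := hgen
  obtain ⟨ψ, hadd, ⟨h1, hh1, hψ1⟩, hker, hpow⟩ := EXC.cyc L.fixingSubgroup E.fixingSubgroup (2 ^ J)
    (by positivity) (EXC.nrm hL hB hC hT) hidx F0 hF0 ho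
  have hfi : E.fixingSubgroup.FiniteIndex :=
    ⟨by rw [← IntermediateField.finrank_eq_fixingSubgroup_index]; exact Module.finrank_pos.ne'⟩
  refine ⟨ψ, ⟨hadd, ⟨E.fixingSubgroup.normalCore, ⟨inferInstance, ?_, fun h => ?_⟩,
    (Subgroup.normalCore_le _).trans hKH, fun u hu => ?_⟩, fun Q hQ h hh hi => ?_,
    fun Q hQ h2 h hh hD => ?_⟩, ⟨h1, hh1, hψ1 ▸ isUnit_one⟩, fun Q w hQ hw => ?_⟩
  · exact Subgroup.isOpen_of_isClosed_of_finiteIndex _
      (Subgroup.normalCore_isClosed _ (IntermediateField.fixingSubgroup_isClosed E))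
  · obtain ⟨k, hk⟩ := hOp.2.2 h
    refine ⟨k + J, fun b => ?_⟩
    have := hpow _ (hOp.1.conj_mem _ hk b)
    rwa [conj_pow, ← pow_mul, ← pow_add] at this
  · exact (hker u (hKH (Subgroup.normalCore_le _ hu))).2 (Subgroup.normalCore_le _ hu)
  · exact (hker h hh).2 (hT.unr Q hQ h hh hi)
  · exact (hker h hh).2 (hT.two Q hQ h2 h hh hD)
  · obtain ⟨F, hF, hFb⟩ := hL.frob L Q w.1 hQ hw
    constructor
    · intro H
      have h2 := (hker F hF).1 (H F hF ((hL.grp Q hQ).2.2.2.1 _ F (EXC.norm_pos _) hFb))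
      have := (hT.frb Q w hQ hw F hF hFb 1).1 (by rwa [pow_one])
      rwa [one_smul] at this
    · intro H h hh hD
      obtain ⟨k, i, hi, hiL, hki⟩ := hL.dec L E Q w.1 F h hQ hw hLE hF hFb hh hD
      have h2 := mul_mem ((hT.frb Q w hQ hw F hF hFb k).2 (by rw [H, smul_zero]))
        (hT.unr Q hQ i hiL hi)
      refine (hker h hh).2 ?_
      rw [IntermediateField.mem_fixingSubgroup_iff] at h2 ⊢
      intro y hy
      rw [hki y hy, h2 y hy]

end Pool.Agent.MP_1246c0_nt.H25
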