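import Pool.Agent.MP_1246c0_nt.H25.SpecR
import Pool.Agent.MP_1246c0_nt.H92.RM0

/-! The bad events at intermediate levels. -/

namespace Pool.Agent.MP_1246c0_nt.H25

open Polynomial Finset Matrix
open Pool.Agent.MP_1246c0_nt.H12 Pool.Agent.MP_1246c0_nt.H12.RM0

namespace RMH

theorem er_le {x y : ℕ} (hy : 10 ≤ y) (hx : x ≤ 2 * y) : Er (x + 1) y (y ^ 5) ≤ 1 / 2 ^ x := by
  rw [Er, div_le_div_iff₀ (by positivity) (by positivity), one_mul, ← pow_add]
  refine pow_le_pow_right₀ one_le_two ?_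
  rw [Nat.le_div_iff_mul_le (by norm_num)]
  have h1 : 5 * (x + 1 + 1) * (x + 1 + y + 2) ≤ 5 * (3 * y) * (4 * y) :=
    Nat.mul_le_mul (by omega) (by omega)
  have h2 : 10 ^ 3 ≤ y ^ 3 := Nat.pow_le_pow_left hy 3
  have h3 : y ^ 5 = y ^ 3 * (y * y) := by ring
  have h4 : 10 ^ 3 * (y * y) ≤ y ^ 3 * (y * y) := Nat.mul_le_mul_right _ h2
  nlinarith

theorem xx_step (tp j0 a : ℕ) : xx tp j0 a ≤ 2 * xx tp j0 (a + 1) := by
  rw [xx, xx, ← pow_succ']
  refine Nat.pow_le_pow_right two_pos ?_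
  unfold jj
  omega

variable {ι : Type} [Fintype ι] [DecidableEq ι] {lv : ι → ℕ} {e : ι → F2} {B : Finset ι}
  {S : Matrix ι ι F2} {tp j0 a : ℕ}

theorem okL (ok : SOKO) (hN : Nc lv e B S tp j0) (hS : Sym i2 i2 S e B) (hj : 55 ≤ j0)
    (ha : a < tp) :
    Ok i2 i2 (rs lv a S) (fun l => e l.1) (tr lv a B) (pc lv a) (pc lv a ∩ tr lv a B) false
      (xx tp j0 a ^ 5) (xx tp j0 a) ∧ (pc lv a ∩ tr lv a B).card ≤ xx tp j0 a ^ 11 :=
  ok F2 ι i2 i2 lv e B S e tp j0 a a false hN hj ha.le ha (by simp)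
    (fun l hl l' hl' => hS l (mem_filter.1 hl).1 l' (mem_filter.1 hl').1) fun _ => rfl

theorem kerL (av : SAVG) (ld : SLD) (ok : SOKO) (hN : Nc lv e B S tp j0) (hS : Sym i2 i2 S e B)
    (hj : 55 ≤ j0) (ha : a + 1 < tp) :
    Ex (Hs i2 B B) (fun H => ind (2 ^ xx tp j0 a < KK lv e (S + H) (a + 1))) ≤
      1 / 2 ^ (xx tp j0 a + 1) + 1 / 2 ^ xx tp j0 a := by
  refine (res av B fun M => ind (2 ^ xx tp j0 a < Kr M (fun l => e l.1) ∅)).trans_le
    ((ld.ker _ _ _ _ _ _ _ _ _ (okL ok hN hS hj ha).1).trans ?_)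
  have := er_le (xx_ge (tp := tp) (j0 := j0) (x := 10) (by omega) ha.le) (xx_step tp j0 a)
  linarith

end RMH

theorem rowRMH : OfRMH := by
  intro av ld lvl ⟨C, x0, hM⟩ ok
  obtain ⟨x2, high⟩ := lvl.high
  refine ⟨max 5 C, 55 + 5 * x0 + 5 * x2, fun ι _ _ lv e B S tp j0 a hN hS hj a1 a2 => ?_,
    fun Λ ι _ _ _ _ st au τ lv e B S c tp j0 a a' b hL hN hj ha hb hS hc => ?_⟩
  · have j55 : 55 ≤ j0 := by omega
    obtain ⟨o1, o2⟩ := RMH.okL ok hN hS j55 (show a < tp by omega)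
    have f1 : 2 ^ nn tp j0 a ≤ xx tp j0 a := Nat.pow_le_pow_right two_pos (min_le_right _ _)
    have := high _ _ _ _ _ _ _ _ (xx_ge (by omega) (by omega)) o1 o2 Nat.one_le_two_pow f1
      ((res av B fun M => ind (2 ^ xx tp j0 a < Kr M (fun l => e l.1) (pc lv a))).symm.trans_le
        ((av.mono _ _ _ _ fun H _ => ind_mono fun h => h.trans_le (kr_step lv e _ a)).trans
          (RMH.kerL av ld ok hN hS j55 (by omega))))
    unfold BadL
    rw [if_neg (by omega)]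
    refine (res av B fun M => ind (Bad1 M (fun l => e l.1) (pc lv a) 0 _)).trans_le
      (this.trans (le_trans ?_ (div_le_div_of_nonneg_right (le_max_left 5 C) (by positivity))))
    have b1 : (1 : ℝ) / 2 ^ xx tp j0 a ≤ 1 / 2 ^ 2 ^ nn tp j0 a :=
      one_div_le_one_div_of_le (by positivity) (pow_le_pow_right₀ one_le_two f1)
    have b2 : (1 : ℝ) / 2 ^ (xx tp j0 a + 1) ≤ 1 / 2 ^ 2 ^ nn tp j0 a :=
      one_div_le_one_div_of_le (by positivity) (pow_le_pow_right₀ one_le_two (by omega))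
    rw [div_eq_mul_one_div 3, div_eq_mul_one_div 5]
    linarith
  · obtain ⟨h1, -⟩ := ok Λ ι st au lv e B S c tp j0 a a' b hN (by omega) (by omega) (by omega) hb
      hS hc
    have h2 := av.res Λ ι {l // a' ≤ lv l} st B B Subtype.val (fun H => ind (BadM au τ
      (2 ^ nn tp j0 a) (2 ^ nn tp j0 a) (S.submatrix Subtype.val Subtype.val + H) (fun l => c l.1)
        (univ.filter fun l => lv l.1 = a') b)) Subtype.val_injective
    refine le_of_eq_of_le h2 ?_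
    have hN1 : 2 ^ nn tp j0 a ≤ xx tp j0 a := Nat.pow_le_pow_right two_pos (min_le_right _ _)
    exact (hM Λ _ st au τ _ _ _ _ _ _ b (xx tp j0 a) _ hL (xx_ge (by omega) (by omega)) h1
      Nat.one_le_two_pow hN1 hN1).trans
      (mul_le_mul_of_nonneg_right (le_max_right 5 C) (by positivity))

end Pool.Agent.MP_1246c0_nt.H25
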